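import Pool.Agent.H26.ZQ.Defs

/-! Module CIR of the board `zq_modules`: the square integral on the circles. -/

set_option autoImplicit false

open MeasureTheory Set Filter Topology Metric

namespace Pool.Agent.H48.ZQ

open Pool.Agent.H26.ZQ Pool.Agent.H26.ML

lemma lintegral_period {G : ℝ → ENNReal} {T : ℝ} (hT : 0 < T) (hG : Function.Periodic G T)
    (s t : ℝ) : ∫⁻ θ in Ioc s (s + T), G θ = ∫⁻ θ in Ioc t (t + T), G θ := by
  have : VAddInvariantMeasure (AddSubgroup.zmultiples T) ℝ volume :=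
    ⟨fun c s _ => measure_preimage_add _ _ _⟩
  exact (isAddFundamentalDomain_Ioc hT s).setLIntegral_eq (isAddFundamentalDomain_Ioc hT t) G
    hG.map_vadd_zmultiples

theorem pf_cir (hZC : T_ZC) (hUNI : T_UNI) : T_CIR := by
  intro E σ c k f hE hσ hc hf
  obtain ⟨B, δ₀, hδ₀, hB⟩ := hUNI E σ c k f hE hσ hc hf
  have hc0 : 0 < c := hσ.trans hc
  have hπ := Real.pi_pos
  have h1 : Tendsto (fun n => (1 - rad n) / (1 + rad n)) atTop (𝓝 ((1 - 1) / (1 + 1))) :=
    (rad_tendsto.const_sub 1).div (rad_tendsto.const_add 1) (by norm_num)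
  rw [sub_self, zero_div] at h1
  refine ⟨2 * B, ?_⟩
  filter_upwards [h1.eventually (gt_mem_nhds hδ₀)] with n hn
  have hr0 := rad_pos n
  have hr1 := rad_lt n
  generalize rad n = r at hn hr0 hr1
  have hδ : 0 < (1 - r) / (1 + r) := div_pos (by linarith) (by linarith)
  have hB' := hB _ hδ hn.le
  let G : ℝ → ENNReal := fun θ => ENNReal.ofReal ((max (-bdry f c r θ) 0) ^ 2)
  have hG : Function.Periodic G (2 * Real.pi) := by
    intro θ
    simp only [G, bdry]
    rw [periodic_circleMap 0 r θ]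
  have h2 : ∫⁻ θ in Ioc 0 (2 * Real.pi), G θ = ∫⁻ θ in Ioo (-Real.pi) Real.pi, G θ := by
    have h3 := lintegral_period (by positivity) hG 0 (-Real.pi)
    rw [zero_add, show -Real.pi + 2 * Real.pi = Real.pi by ring] at h3
    rw [h3]
    exact setLIntegral_congr Ioo_ae_eq_Ioc.symm
  have hder : ∀ u ∈ (univ : Set ℝ), HasDerivWithinAt (ang c) (-(2 * (c / (c ^ 2 + u ^ 2)))) univ u :=
    fun u _ => (ang_hasDerivAt hc0 u).hasDerivWithinAt
  have h3 : ∫⁻ θ in Ioo (-Real.pi) Real.pi, G θ =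
      ∫⁻ u : ℝ, ENNReal.ofReal |-(2 * (c / (c ^ 2 + u ^ 2)))| * G (ang c u) := by
    rw [← ang_image hc0, lintegral_image_eq_lintegral_abs_deriv_mul MeasurableSet.univ hder
      (ang_inj hc0).injOn, Measure.restrict_univ]
  have h4 : ∀ u : ℝ, ENNReal.ofReal |-(2 * (c / (c ^ 2 + u ^ 2)))| * G (ang c u) =
      ENNReal.ofReal 2 * ENNReal.ofReal (poi c u *
        (max (-Real.log ‖f (zz c ((1 - r) / (1 + r)) u)‖) 0) ^ 2) := by
    intro u
    have h5 : bdry f c r (ang c u) = Real.log ‖f (zz c ((1 - r) / (1 + r)) u)‖ := by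
      unfold bdry
      rw [hZC c r u hc0 hr0 hr1.le]
    simp only [G, h5]
    rw [← ENNReal.ofReal_mul (abs_nonneg _), ← ENNReal.ofReal_mul (by norm_num)]
    congr 1
    rw [abs_neg, abs_of_pos (by positivity)]
    unfold poi
    ring
  change ∫⁻ θ in Ioc 0 (2 * Real.pi), G θ ≤ ENNReal.ofReal (2 * B)
  rw [h2, h3]
  simp_rw [h4]
  rw [lintegral_const_mul' _ _ ENNReal.ofReal_ne_top, ENNReal.ofReal_mul (by norm_num : (0:ℝ) ≤ 2)]
  exact mul_le_mul_right hB' _

end Pool.Agent.H48.ZQ
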